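import Pool.Agent.H91.BE.Base

/-!
# A bar system on the real line: semicontinuity fails at generic points
-/

set_option autoImplicit false

namespace Pool.Agent.H79.BE.Gen

open Filter Topology Set Pool.Agent.H91.BE
open scoped ENNReal

/-- The real line, written multiplicatively. -/
abbrev Line := Multiplicative ℝ

/-- the absolute value of the real number -/
noncomputable def av (x : Line) : ℝ := |Multiplicative.toAdd x|

/-- the integer nearest to `|x| - 1 / 2` -/
noncomputable def nr (x : Line) : ℤ := round (av x - 1 / 2)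

open Classical in
/-- One bar everywhere, and near the points `± (j ! + 1 / 2)` there are `2 ^ (j !)` bars of length
`1 - 2 * distance`. -/
noncomputable def gb (ε : ℝ) (x : Line) : ℕ :=
  if 2 * |av x - 1 / 2 - nr x| + ε < 1 ∧ ∃ j : ℕ, nr x = (j.factorial : ℤ)
  then 2 ^ (nr x).toNat else 1

theorem round_eq_of {x : ℝ} {n : ℤ} (h : |x - n| < 1 / 2) : round x = n := by
  have h1 := abs_sub_round x
  have h2 : |((round x - n : ℤ) : ℝ)| < 1 := by
    push_cast
    calc |(round x : ℝ) - n| = |(x - n) - (x - round x)| := by congr 1; ring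
      _ ≤ |x - n| + |x - round x| := abs_sub _ _
      _ < 1 := by linarith
  have h3 : |round x - n| < 1 := by exact_mod_cast h2
  have := Int.abs_lt_one_iff.1 h3
  omega

theorem one_le_gb (ε : ℝ) (x : Line) : 1 ≤ gb ε x := by
  unfold gb
  split_ifs
  · exact Nat.one_le_two_pow
  · exact le_refl _

theorem gb_stable (φ ψ : Line) (ε δ : ℝ) (h0 : 0 < ε)
    (h : |Multiplicative.toAdd φ - Multiplicative.toAdd ψ| < δ) :
    gb (ε + 2 * δ) φ ≤ gb ε ψ := by
  by_cases h1 : 2 * |av φ - 1 / 2 - nr φ| + (ε + 2 * δ) < 1 ∧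
      ∃ j : ℕ, nr φ = (j.factorial : ℤ)
  · have hd : |av ψ - av φ| < δ := by
      refine lt_of_le_of_lt ?_ h
      rw [abs_sub_comm (Multiplicative.toAdd φ)]
      exact abs_abs_sub_abs_le _ _
    have h3 : |av ψ - 1 / 2 - nr φ| ≤ |av ψ - av φ| + |av φ - 1 / 2 - nr φ| := by
      calc |av ψ - 1 / 2 - nr φ| = |(av ψ - av φ) + (av φ - 1 / 2 - nr φ)| := by
            congr 1; ring
        _ ≤ _ := abs_add_le _ _
    have hδ : 0 < δ := lt_of_le_of_lt (abs_nonneg _) h
    have e : nr ψ = nr φ := round_eq_of (by linarith [h1.1])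
    have h2 : 2 * |av ψ - 1 / 2 - nr ψ| + ε < 1 ∧ ∃ j : ℕ, nr ψ = (j.factorial : ℤ) := by
      rw [e]
      exact ⟨by linarith [h1.1], h1.2⟩
    unfold gb
    rw [if_pos h1, if_pos h2, e]
  · have e : gb (ε + 2 * δ) φ = 1 := if_neg h1
    rw [e]
    exact one_le_gb _ _

theorem gb_anti (φ : Line) (ε ε' : ℝ) (_ : 0 < ε) (h : ε ≤ ε') : gb ε' φ ≤ gb ε φ := by
  by_cases h1 : 2 * |av φ - 1 / 2 - nr φ| + ε' < 1 ∧ ∃ j : ℕ, nr φ = (j.factorial : ℤ)
  · have h2 : 2 * |av φ - 1 / 2 - nr φ| + ε < 1 ∧ ∃ j : ℕ, nr φ = (j.factorial : ℤ) :=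
      ⟨by linarith [h1.1], h1.2⟩
    unfold gb
    rw [if_pos h1, if_pos h2]
  · have e : gb ε' φ = 1 := if_neg h1
    rw [e]
    exact one_le_gb _ _

/-- The bar system on the real line. -/
noncomputable def sys : BarSystem Line where
  dist φ ψ := |Multiplicative.toAdd φ - Multiplicative.toAdd ψ|
  dist_self φ := by simp
  dist_comm φ ψ := abs_sub_comm _ _
  dist_triangle φ ψ χ := abs_sub_le _ _ _
  dist_mul_left χ φ ψ := by
    rw [toAdd_mul, toAdd_mul]; congr 1; ring
  dist_mul_right χ φ ψ := by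
    rw [toAdd_mul, toAdd_mul]; congr 1; ring
  bars := gb
  bars_anti := gb_anti
  stable := gb_stable

theorem av_pow {x : ℝ} (hx : 0 ≤ x) (k : ℕ) :
    av ((Multiplicative.ofAdd x : Line) ^ k) = (k : ℝ) * x := by
  rw [av, toAdd_pow, toAdd_ofAdd, nsmul_eq_mul, abs_of_nonneg (by positivity)]

theorem gb_inv (ε : ℝ) (x : Line) : gb ε x⁻¹ = gb ε x := by
  have e : av x⁻¹ = av x := by rw [av, av, toAdd_inv, abs_neg]
  have e2 : nr x⁻¹ = nr x := by rw [nr, nr, e]
  unfold gb
  rw [e, e2]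

theorem log_gb_le (ε : ℝ) (hε : 0 < ε) (x : Line) :
    Real.posLog (gb ε x) ≤ av x * Real.log 2 := by
  have hl : 0 < Real.log 2 := Real.log_pos (by norm_num)
  have ha : 0 ≤ av x := abs_nonneg _
  by_cases h : 2 * |av x - 1 / 2 - nr x| + ε < 1 ∧ ∃ j : ℕ, nr x = (j.factorial : ℤ)
  · have e : gb ε x = 2 ^ (nr x).toNat := if_pos h
    obtain ⟨h1, j, hj⟩ := h
    rw [e, hj]
    have h2 := abs_lt.1 (show |av x - 1 / 2 - nr x| < 1 / 2 by linarith)
    rw [hj] at h2
    push_cast at h2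
    have h3 : (j.factorial : ℝ) ≤ av x := by linarith [h2.1]
    rw [Int.toNat_natCast, Nat.cast_pow, Nat.cast_ofNat,
      Real.posLog_eq_log (by
        rw [abs_of_pos (by positivity)]
        exact one_le_pow₀ (by norm_num)), Real.log_pow]
    exact mul_le_mul_of_nonneg_right h3 hl.le
  · have e : gb ε x = 1 := if_neg h
    rw [e]
    simp only [Nat.cast_one]
    have : Real.posLog (1 : ℝ) = 0 := by simp [Real.posLog]
    rw [this]
    positivity

theorem entropy_lt_top (x : Line) : barEntropy sys x < ⊤ := by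
  refine lt_of_le_of_lt ?_ (ENNReal.ofReal_lt_top (r := av x * Real.log 2))
  apply iSup_le
  rintro ⟨ε, hε⟩
  have hε' : 0 < ε := hε
  apply limsup_le_of_le (by isBoundedDefault)
  filter_upwards [eventually_gt_atTop 0] with k hk
  have hk' : (0 : ℝ) < k := by exact_mod_cast hk
  apply ENNReal.ofReal_le_ofReal
  change Real.posLog (gb ε (x ^ k)) / k ≤ _
  rw [div_le_iff₀ hk']
  have h1 := log_gb_le ε hε' (x ^ k)
  have e : av (x ^ k) = k * av x := by
    rw [av, av, toAdd_pow, nsmul_eq_mul, abs_mul, abs_of_nonneg hk'.le]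
  rw [e] at h1
  linarith

/-- At a rational number `≥ 1` the entropy of the model is zero. -/
theorem bar_rat (r : ℚ) (hr : 1 ≤ r) :
    barEntropy sys (Multiplicative.ofAdd (r : ℝ)) = 0 := by
  rw [barEntropy]
  simp only [ENNReal.iSup_eq_zero]
  rintro ⟨ε, hε⟩
  have hε' : 0 < ε := hε
  rw [← le_zero_iff, ← growth_const 1]
  apply growth_mono
  obtain ⟨a, ha⟩ : ∃ a : ℕ, r.num = a := ⟨r.num.toNat, by
    have : 0 < r.num := Rat.num_pos.2 (by linarith)
    omega⟩
  have ha0 : 0 < a := by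
    have : 0 < r.num := Rat.num_pos.2 (by linarith)
    omega
  have hrR : (1 : ℝ) ≤ (r : ℝ) := by exact_mod_cast hr
  have hra : (r : ℝ) * r.den = a := by
    have h1 : (r : ℚ) * r.den = r.num := Rat.mul_den_eq_num r
    have h2 : ((r : ℚ) : ℝ) * ((r.den : ℕ) : ℝ) = ((r.num : ℤ) : ℝ) := by exact_mod_cast h1
    rw [h2, ha]; simp
  filter_upwards [eventually_gt_atTop (a.factorial + 1)] with k hk
  change gb ε ((Multiplicative.ofAdd (r : ℝ) : Line) ^ k) ≤ 1
  unfold gb
  rw [if_neg]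
  rintro ⟨h1, j, hj⟩
  rw [hj, av_pow (by linarith)] at h1
  push_cast at h1
  have h2 := abs_lt.1 (show |(k : ℝ) * r - 1 / 2 - (j.factorial : ℝ)| < 1 / 2 by linarith)
  have hkR : ((a.factorial : ℝ) + 1) < k := by exact_mod_cast hk
  have hk1 : (k : ℝ) ≤ k * r := by nlinarith [(Nat.cast_nonneg k : (0 : ℝ) ≤ k)]
  have h3 : (a.factorial : ℝ) < j.factorial := by linarith [h2.2]
  have h4 : a < j := by
    by_contra hc
    have := Nat.factorial_le (Nat.le_of_not_lt hc)
    have h5 : (j.factorial : ℝ) ≤ a.factorial := by exact_mod_cast this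
    linarith
  obtain ⟨c, hc⟩ : a ∣ j.factorial := Nat.dvd_factorial ha0 h4.le
  have h6 : (j.factorial : ℝ) = (r.den * c : ℕ) * r := by
    rw [hc]; push_cast; rw [← hra]; ring
  rw [h6] at h2
  have h7 : 0 < ((k : ℝ) - (r.den * c : ℕ)) * r := by
    have : ((k : ℝ) - (r.den * c : ℕ)) * r = k * r - (r.den * c : ℕ) * r := by ring
    linarith [h2.1]
  have h8 : ((k : ℝ) - (r.den * c : ℕ)) * r < 1 := by
    have : ((k : ℝ) - (r.den * c : ℕ)) * r = k * r - (r.den * c : ℕ) * r := by ring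
    linarith [h2.2]
  have h9 : (0 : ℝ) < (k : ℝ) - (r.den * c : ℕ) := by
    by_contra hcon
    push Not at hcon
    nlinarith
  have h10 : (r.den * c : ℕ) < k := by
    have : ((r.den * c : ℕ) : ℝ) < k := by linarith
    exact_mod_cast this
  have h11 : ((r.den * c : ℕ) : ℝ) + 1 ≤ k := by exact_mod_cast h10
  nlinarith

/-- the open dense sets of points with a multiple near some `j ! + 1 / 2`, `j ≥ J` -/
def O (J : ℕ) : Set ℝ :=
  Iio 0 ∪ ⋃ (j : ℕ) (_ : J ≤ j) (k : ℕ), {x : ℝ | |(k : ℝ) * x - (j.factorial + 1 / 2)| < 1 / 8}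

theorem isOpen_O (J : ℕ) : IsOpen (O J) := by
  apply isOpen_Iio.union
  refine isOpen_iUnion fun j => isOpen_iUnion fun _ => isOpen_iUnion fun k => ?_
  exact isOpen_lt (by fun_prop) continuous_const

theorem dense_O (J : ℕ) : Dense (O J) := by
  rw [dense_iff_inter_open]
  intro V hV ⟨x, hx⟩
  obtain ⟨δ, hδ, hball⟩ := Metric.isOpen_iff.1 hV x hx
  rcases lt_or_ge x 0 with hx0 | hx0
  · exact ⟨x, hx, Or.inl hx0⟩
  obtain ⟨y, hy⟩ : ∃ y, y = x + δ / 2 := ⟨_, rfl⟩
  have hy0 : 0 < y := by linarith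
  obtain ⟨N, hN⟩ := exists_nat_gt (y + 4 * y * y / δ)
  obtain ⟨j, hj⟩ : ∃ j, j = max J N := ⟨_, rfl⟩
  have hjJ : J ≤ j := hj ▸ le_max_left _ _
  have hjN : (N : ℝ) ≤ j.factorial := by
    have h1 : N ≤ j := hj ▸ le_max_right _ _
    have h2 : j ≤ j.factorial := Nat.self_le_factorial j
    exact_mod_cast h1.trans h2
  obtain ⟨P, hP⟩ : ∃ P : ℝ, P = j.factorial + 1 / 2 := ⟨_, rfl⟩
  have hPy : y + 4 * y * y / δ < P := by linarith
  have hq : 0 < 4 * y * y / δ := by positivity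
  obtain ⟨k, hk⟩ : ∃ k, k = ⌊P / y⌋₊ := ⟨_, rfl⟩
  have hk1 : (k : ℝ) ≤ P / y := hk ▸ Nat.floor_le (div_nonneg (by rw [hP]; positivity) hy0.le)
  have hk2 : P / y < k + 1 := hk ▸ Nat.lt_floor_add_one _
  rw [le_div_iff₀ hy0] at hk1
  rw [div_lt_iff₀ hy0] at hk2
  have hk0 : 0 < (k : ℝ) := by
    by_contra hcon
    have h0 : (k : ℝ) = 0 := le_antisymm (not_lt.1 hcon) (Nat.cast_nonneg k)
    rw [h0] at hk2
    linarith
  have e1 : y ≤ P / k := by rw [le_div_iff₀ hk0]; linarith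
  have e2 : P / k < y + δ / 2 := by
    rw [div_lt_iff₀ hk0]
    have h1 : y < k * (δ / 2) := by
      have h2 : 4 * y * y / δ < k * y := by linarith
      have h3 : 4 * y * y < k * y * δ := by rwa [div_lt_iff₀ hδ] at h2
      have h4 : 4 * y < k * δ := by
        by_contra hcon
        push Not at hcon
        nlinarith
      linarith
    nlinarith
  refine ⟨P / k, hball ?_, Or.inr ?_⟩
  · rw [Metric.mem_ball, Real.dist_eq, abs_lt]
    constructor <;> linarith
  · simp only [mem_iUnion]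
    refine ⟨j, hjJ, k, ?_⟩
    rw [mem_ofPred_eq, ← hP, mul_div_cancel₀ _ hk0.ne', sub_self, abs_zero]
    norm_num

theorem bar_generic {x : ℝ} (hx : ∀ J, x ∈ O J) (h1 : 1 ≤ x) :
    ENNReal.ofReal (Real.log 2) ≤ barEntropy sys (Multiplicative.ofAdd x) := by
  refine le_trans ?_ (entropyAt_le sys _ (ε := 1 / 2) (by norm_num))
  apply le_limsup_of_frequently_le _ (by isBoundedDefault)
  rw [frequently_atTop]
  intro K
  obtain ⟨N, hN⟩ := exists_nat_gt (K * x)
  rcases hx N with h | h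
  · have h' : x < 0 := h
    linarith
  simp only [mem_iUnion] at h
  obtain ⟨j, hj, k, hk⟩ := h
  rw [mem_ofPred_eq] at hk
  have hk' := abs_lt.1 hk
  have hjN : (N : ℝ) ≤ j.factorial := by
    exact_mod_cast hj.trans (Nat.self_le_factorial j)
  have hKk : (K : ℝ) < k := by
    by_contra hcon
    push Not at hcon
    nlinarith
  have hkj : k ≤ j.factorial := by
    have h2 : (k : ℝ) ≤ k * x := by nlinarith [(Nat.cast_nonneg k : (0 : ℝ) ≤ k)]
    have h3 : (k : ℝ) < ((j.factorial + 1 : ℕ) : ℝ) := by push_cast; linarith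
    have h4 : k < j.factorial + 1 := by exact_mod_cast h3
    omega
  have hk0 : (0 : ℝ) < k := lt_of_le_of_lt (Nat.cast_nonneg K) hKk
  have e0 : (k : ℝ) * x - 1 / 2 - j.factorial = k * x - (j.factorial + 1 / 2) := by ring
  have hnr : nr ((Multiplicative.ofAdd x : Line) ^ k) = (j.factorial : ℤ) := by
    apply round_eq_of
    rw [av_pow (by linarith)]
    push_cast
    rw [e0]
    linarith
  have hmb : gb (1 / 2) ((Multiplicative.ofAdd x : Line) ^ k) = 2 ^ j.factorial := by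
    unfold gb
    rw [hnr, if_pos]
    · simp
    · refine ⟨?_, j, rfl⟩
      rw [av_pow (by linarith)]
      push_cast
      rw [e0]
      linarith
  refine ⟨k, by exact_mod_cast hKk.le, ?_⟩
  apply ENNReal.ofReal_le_ofReal
  change Real.log 2 ≤
    Real.posLog ((gb (1 / 2) ((Multiplicative.ofAdd x : Line) ^ k) : ℕ) : ℝ) / k
  rw [hmb, le_div_iff₀ hk0, Nat.cast_pow, Nat.cast_ofNat,
    Real.posLog_eq_log (by
      rw [abs_of_pos (by positivity)]
      exact one_le_pow₀ (by norm_num)), Real.log_pow, mul_comm]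
  exact mul_le_mul_of_nonneg_right (by exact_mod_cast hkj) (Real.log_nonneg (by norm_num))

/-- A bar system on the real line with the usual distance, zero entropy at all rational numbers
`≥ 1` and entropy at least `log 2` at the points `≥ 1` of a residual set. -/
theorem generic_model : ∃ B : BarSystem (Multiplicative ℝ),
    (∀ x y : ℝ, B.dist (Multiplicative.ofAdd x) (Multiplicative.ofAdd y) = |x - y|) ∧
    (∀ ε g, 1 ≤ B.bars ε g) ∧ (∀ ε g, B.bars ε g⁻¹ = B.bars ε g) ∧
    (∀ g, barEntropy B g < ⊤) ∧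
    (∀ r : ℚ, 1 ≤ r → barEntropy B (Multiplicative.ofAdd (r : ℝ)) = 0) ∧
    ∃ R ∈ residual ℝ, ∀ x ∈ R, 1 ≤ x →
      ENNReal.ofReal (Real.log 2) ≤ barEntropy B (Multiplicative.ofAdd x) := by
  refine ⟨sys, fun x y => rfl, one_le_gb, gb_inv, entropy_lt_top, bar_rat, ⋂ J, O J, ?_, ?_⟩
  · rw [countable_iInter_mem]
    exact fun J => residual_of_dense_open (isOpen_O J) (dense_O J)
  · intro x hx h1
    exact bar_generic (mem_iInter.1 hx) h1

end Pool.Agent.H79.BE.Gen
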